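import Pool.Agent.N623.CS.Final

/-!
# An analytic equivalence relation on the Carlson–Simpson space which is not canonized to any
hypersmooth equivalence relation

The space `EInf` of all equivalence relations on the natural numbers with infinitely many classes,
its topology, the sets `cube s A`, the ideal and canonization are defined as in the problem file in
`Pool.Agent.N623.CS.Defs`.
-/

namespace Pool.Agent.Results.MP_2823fe_lc.NoHypersmooth

open Pool.Agent.N623.CS

universe u

/-- The equivalence relation `relE` on `EInf` (the counting functions of the least elements of the
classes stay at bounded distance) is analytic, and the ideal does not canonize it to any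
hypersmooth equivalence relation; its restriction to a Borel set outside the ideal is never Borel
reducible to a hypersmooth equivalence relation. -/
theorem result : AnalyticEq relE ∧
    ∀ (Y : Type u) [TopologicalSpace Y] [PolishSpace Y] (F : Setoid Y), Hypersmooth F →
      (∀ C : Set EInf, IsBorel C → C ∉ ideal → ¬ Reduces (restr relE C) F) ∧
      ¬ Canonizes relE F :=
  ⟨analytic, fun _ _ _ F hF => ⟨fun C hC hCi => not_reduces F hF C hC hCi, not_canonizes F hF⟩⟩

end Pool.Agent.Results.MP_2823fe_lc.NoHypersmooth
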